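import Mathlib

/-! # From the recursion of the growth function to a stretched exponential bound -/

set_option autoImplicit false

namespace Pool.Agent.GrW

lemma rho_pow : (9 / 20 : ℝ) ^ (9 / 10 : ℝ) ≤ 49 / 100 := by
  have h0 : (0 : ℝ) ≤ (9 / 20 : ℝ) ^ (9 / 10 : ℝ) := by positivity
  have h1 : ((9 / 20 : ℝ) ^ (9 / 10 : ℝ)) ^ 10 ≤ (49 / 100 : ℝ) ^ 10 := by
    rw [← Real.rpow_natCast, ← Real.rpow_mul (by norm_num)]
    have : (9 / 10 : ℝ) * ((10 : ℕ) : ℝ) = ((9 : ℕ) : ℝ) := by norm_num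
    rw [this, Real.rpow_natCast]
    norm_num
  exact le_of_pow_le_pow_left₀ (by norm_num) (by norm_num) h1

lemma two_terms {a b x : ℝ} (ha : 0 ≤ a) (hb : 0 ≤ b) (hx : 0 ≤ x)
    (h : a + b ≤ 9 / 10 * x) :
    a ^ (9 / 10 : ℝ) + b ^ (9 / 10 : ℝ) ≤ 49 / 50 * x ^ (9 / 10 : ℝ) := by
  have hc := (Real.concaveOn_rpow (p := 9 / 10) (by norm_num) (by norm_num)).2
    (Set.mem_Ici.2 ha) (Set.mem_Ici.2 hb) (by norm_num : (0 : ℝ) ≤ 1 / 2)
    (by norm_num : (0 : ℝ) ≤ 1 / 2) (by norm_num)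
  simp only [smul_eq_mul] at hc
  have h1 : (1 / 2 * a + 1 / 2 * b) ^ (9 / 10 : ℝ) ≤ (9 / 20 * x) ^ (9 / 10 : ℝ) :=
    Real.rpow_le_rpow (by positivity) (by linarith) (by norm_num)
  rw [Real.mul_rpow (by norm_num) hx] at h1
  have h2 : (9 / 20 : ℝ) ^ (9 / 10 : ℝ) * x ^ (9 / 10 : ℝ) ≤ 49 / 100 * x ^ (9 / 10 : ℝ) :=
    mul_le_mul_of_nonneg_right rho_pow (by positivity)
  linarith

/-- `S = 7 (R + 5) / 8 < R` for large `R`; `2 * (7/8) ^ 9 < 1`, so `2 ^ (1/10) (7/8) ^ (9/10) < 1`; concavity of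
`x ^ (9/10)` for the sum over `k`; the factor `2 (S + 1)` is absorbed for large `R`, `C` is chosen after that. -/
theorem growth_of_rec (N : ℕ → ℕ) (hN : ∀ R, 1 ≤ N R)
    (h : ∀ R, N R ≤ 2 * ∑ k ∈ Finset.range (7 * (R + 5) / 8 + 1), N k * N (7 * (R + 5) / 8 - k)) :
    ∃ C : ℝ, 0 < C ∧ ∀ R, Real.log (N R) ≤ C * ((R : ℝ) + 1) ^ (9 / 10 : ℝ) := by
  have hlog : ∀ R, 0 ≤ Real.log (N R) := fun R => Real.log_nonneg (by exact_mod_cast hN R)
  have hsum : 0 ≤ ∑ R ∈ Finset.range 219, Real.log (N R) := Finset.sum_nonneg fun R _ => hlog R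
  obtain ⟨C, hC⟩ : ∃ C, C = 100 + ∑ R ∈ Finset.range 219, Real.log (N R) := ⟨_, rfl⟩
  have hC100 : 100 ≤ C := by linarith
  refine ⟨C, by linarith, ?_⟩
  intro R
  induction R using Nat.strong_induction_on with
  | _ R ih =>
  have hR1 : (1 : ℝ) ≤ ((R : ℝ) + 1) ^ (9 / 10 : ℝ) :=
    Real.one_le_rpow (by have : (0 : ℝ) ≤ R := Nat.cast_nonneg R; linarith) (by norm_num)
  rcases Nat.lt_or_ge R 219 with hR | hR
  · have h1 : Real.log (N R) ≤ ∑ R ∈ Finset.range 219, Real.log (N R) :=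
      Finset.single_le_sum (f := fun R => Real.log (N R)) (fun R _ => hlog R)
        (Finset.mem_range.2 hR)
    nlinarith
  · obtain ⟨S, hS⟩ : ∃ S, S = 7 * (R + 5) / 8 := ⟨_, rfl⟩
    have h2 := h R
    rw [← hS] at h2
    have hSR : S < R := by omega
    have hS8 : 8 * S ≤ 7 * (R + 5) := by omega
    obtain ⟨M, hM⟩ : ∃ M, M = C * (49 / 50 * ((R : ℝ) + 1) ^ (9 / 10 : ℝ)) := ⟨_, rfl⟩
    have hterm : ∀ k ∈ Finset.range (S + 1), ((N k : ℝ) * (N (S - k) : ℝ)) ≤ Real.exp M := by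
      intro k hk
      rw [Finset.mem_range] at hk
      have hk1 : (0 : ℝ) < N k := by exact_mod_cast hN k
      have hk2 : (0 : ℝ) < N (S - k) := by exact_mod_cast hN (S - k)
      rw [← Real.log_le_iff_le_exp (mul_pos hk1 hk2), Real.log_mul hk1.ne' hk2.ne', hM]
      have e1 := ih k (by omega)
      have e2 := ih (S - k) (by omega)
      have hcast : ((S - k : ℕ) : ℝ) = (S : ℝ) - k := by
        rw [Nat.cast_sub (by omega)]
      have hS8' : (8 : ℝ) * S ≤ 7 * (R + 5) := by exact_mod_cast hS8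
      have hR' : (219 : ℝ) ≤ R := by exact_mod_cast hR
      have e3 := two_terms (a := (k : ℝ) + 1) (b := ((S - k : ℕ) : ℝ) + 1) (x := (R : ℝ) + 1)
        (by positivity) (by positivity) (by positivity) (by rw [hcast]; linarith)
      calc Real.log (N k) + Real.log (N (S - k))
          ≤ C * (((k : ℝ) + 1) ^ (9 / 10 : ℝ) + (((S - k : ℕ) : ℝ) + 1) ^ (9 / 10 : ℝ)) := by
            rw [mul_add]; exact add_le_add e1 e2
        _ ≤ C * (49 / 50 * ((R : ℝ) + 1) ^ (9 / 10 : ℝ)) :=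
            mul_le_mul_of_nonneg_left e3 (by linarith)
    have hbig : (N R : ℝ) ≤ 2 * ((S : ℝ) + 1) * Real.exp M := by
      have h3 : (N R : ℝ) ≤ 2 * ∑ k ∈ Finset.range (S + 1), ((N k : ℝ) * (N (S - k) : ℝ)) := by
        exact_mod_cast h2
      have h4 : ∑ k ∈ Finset.range (S + 1), ((N k : ℝ) * (N (S - k) : ℝ)) ≤
          ((S : ℝ) + 1) * Real.exp M := by
        have := Finset.sum_le_card_nsmul _ _ _ hterm
        rw [Finset.card_range, nsmul_eq_mul] at this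
        push_cast at this
        exact this
      linarith
    have hNR : (0 : ℝ) < N R := by exact_mod_cast hN R
    have hS1 : (0 : ℝ) < 2 * ((S : ℝ) + 1) := by positivity
    have h5 : Real.log (N R) ≤ Real.log (2 * ((S : ℝ) + 1)) + M := by
      have := Real.log_le_log hNR hbig
      rwa [Real.log_mul hS1.ne' (Real.exp_pos M).ne', Real.log_exp] at this
    have h6 : Real.log (2 * ((S : ℝ) + 1)) ≤ 2 * ((R : ℝ) + 1) ^ (9 / 10 : ℝ) := by
      have hS2 : (S : ℝ) ≤ R := by exact_mod_cast hSR.le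
      have e1 : Real.log (2 * ((S : ℝ) + 1)) ≤ Real.log (2 * ((R : ℝ) + 1)) :=
        Real.log_le_log hS1 (by linarith)
      have e2 : Real.log (2 * ((R : ℝ) + 1)) = Real.log 2 + Real.log ((R : ℝ) + 1) :=
        Real.log_mul (by norm_num) (by positivity)
      have e3 := Real.log_le_rpow_div (x := (R : ℝ) + 1) (ε := 9 / 10) (by positivity)
        (by norm_num)
      have e4 := Real.log_two_lt_d9
      have e5 : ((R : ℝ) + 1) ^ (9 / 10 : ℝ) / (9 / 10) = 10 / 9 * ((R : ℝ) + 1) ^ (9 / 10 : ℝ) := by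
        ring
      rw [e5] at e3
      linarith
    have h7 : 0 ≤ (C - 100) * ((R : ℝ) + 1) ^ (9 / 10 : ℝ) :=
      mul_nonneg (by linarith) (by linarith)
    rw [hM] at h5
    linarith

end Pool.Agent.GrW
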