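import Mathlib

/-!
# Words in the generators of the first Grigorchuk group and their action on binary words

`act x` is the action of the letter `x`, `ev u` the action of the word `u`.  Weights of the letters:
`a`, `b`, `c`, `d` have weight `5`, `5`, `3`, `2`.
-/

set_option autoImplicit false

namespace Pool.Agent.GrW

/-- The letters `a`, `b`, `c`, `d`. -/
inductive L
  | a | b | c | d
  deriving DecidableEq

/-- The action of a letter on a binary word. -/
def act : L → List Bool → List Bool
  | _, [] => []
  | .a, x :: w => (!x) :: w
  | .b, false :: w => false :: act .a w
  | .b, true :: w => true :: act .c w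
  | .c, false :: w => false :: act .a w
  | .c, true :: w => true :: act .d w
  | .d, false :: w => false :: w
  | .d, true :: w => true :: act .b w

/-- The action of a word. -/
def ev (u : List L) : List Bool → List Bool := u.foldr (fun x f => act x ∘ f) id

/-- The weight of a letter. -/
def wt : L → ℕ
  | .a => 5
  | .b => 5
  | .c => 3
  | .d => 2

/-- The weight of a word. -/
def wtw (u : List L) : ℕ := (u.map wt).sum

/-- The elements of weight at most `R`. -/
def ball (R : ℕ) : Set (List Bool → List Bool) := {g | ∃ u : List L, wtw u ≤ R ∧ g = ev u}

end Pool.Agent.GrW
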