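import Mathlib

/-! # Windows: from submultiplicativity and a bound for `log (γ k)` to the window sums -/

set_option autoImplicit false

namespace Pool.Agent.GrW

/-- The last step, for any function `γ` with these properties. -/
theorem windows (γ : ℕ → ℕ) (h1 : ∀ n, 1 ≤ γ n) (hmono : Monotone γ) (h5 : ∀ n, γ (n + 1) ≤ 5 * γ n)
    (hsub : ∀ n k, γ (n + k) ≤ γ n * γ k) (C : ℝ)
    (hC : ∀ k : ℕ, Real.log (γ k) ≤ C * ((k : ℝ) + 1) ^ (9 / 10 : ℝ)) :
    ∃ C' : ℝ, ∀ n k : ℕ, ∑ j ∈ Finset.Ico n (n + k), |(γ (j + 1) : ℝ) / γ j - 1| ≤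
        C' * (k : ℝ) ^ (9 / 10 : ℝ) := by
  have hpos : ∀ n, (0 : ℝ) < γ n := fun n => by exact_mod_cast h1 n
  have hC0 : 0 ≤ C := by
    have h := hC 0
    have h' : (0 : ℝ) ≤ Real.log (γ 0) := Real.log_nonneg (by exact_mod_cast h1 0)
    simp at h
    linarith
  have hstep : ∀ j, |(γ (j + 1) : ℝ) / γ j - 1| ≤ 5 * (Real.log (γ (j + 1)) - Real.log (γ j)) := by
    intro j
    have hj := hpos j
    have hr1 : (1 : ℝ) ≤ (γ (j + 1) : ℝ) / γ j := by
      rw [le_div_iff₀ hj, one_mul]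
      exact_mod_cast hmono (Nat.le_succ j)
    have hr5 : (γ (j + 1) : ℝ) / γ j ≤ 5 := by
      rw [div_le_iff₀ hj]
      exact_mod_cast h5 j
    rw [abs_of_nonneg (by linarith), ← Real.log_div (hpos _).ne' hj.ne']
    set r : ℝ := (γ (j + 1) : ℝ) / γ j with hr
    have hr0 : 0 < r := by linarith
    have hlog := Real.one_sub_inv_le_log_of_pos hr0
    have h6 : r - 1 ≤ 5 * (1 - r⁻¹) := by
      have h7 : r * (1 - r⁻¹) = r - 1 := by
        rw [mul_sub, mul_one, mul_inv_cancel₀ hr0.ne']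
      have h8 : 0 ≤ 1 - r⁻¹ := by
        have := inv_le_one_of_one_le₀ hr1
        linarith
      nlinarith
    linarith
  have htel : ∀ n k, ∑ j ∈ Finset.Ico n (n + k), (Real.log (γ (j + 1)) - Real.log (γ j)) =
      Real.log (γ (n + k)) - Real.log (γ n) := by
    intro n k
    induction k with
    | zero => simp
    | succ k ih =>
      rw [← Nat.add_assoc, Finset.sum_Ico_succ_top (by omega), ih]
      ring
  refine ⟨10 * C, fun n k => ?_⟩
  rcases Nat.eq_zero_or_pos k with rfl | hk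
  · simp
  have hk1 : (1 : ℝ) ≤ (k : ℝ) := by exact_mod_cast hk
  have h9 : Real.log (γ (n + k)) ≤ Real.log (γ n) + Real.log (γ k) := by
    rw [← Real.log_mul (hpos n).ne' (hpos k).ne']
    refine Real.log_le_log (hpos _) ?_
    exact_mod_cast hsub n k
  have h10 : ((k : ℝ) + 1) ^ (9 / 10 : ℝ) ≤ 2 * (k : ℝ) ^ (9 / 10 : ℝ) := by
    calc ((k : ℝ) + 1) ^ (9 / 10 : ℝ) ≤ (2 * (k : ℝ)) ^ (9 / 10 : ℝ) :=
          Real.rpow_le_rpow (by positivity) (by linarith) (by norm_num)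
      _ = (2 : ℝ) ^ (9 / 10 : ℝ) * (k : ℝ) ^ (9 / 10 : ℝ) := Real.mul_rpow (by norm_num) (by positivity)
      _ ≤ 2 * (k : ℝ) ^ (9 / 10 : ℝ) := by
          refine mul_le_mul_of_nonneg_right ?_ (by positivity)
          calc (2 : ℝ) ^ (9 / 10 : ℝ) ≤ (2 : ℝ) ^ (1 : ℝ) :=
                Real.rpow_le_rpow_of_exponent_le (by norm_num) (by norm_num)
            _ = 2 := Real.rpow_one _
  calc ∑ j ∈ Finset.Ico n (n + k), |(γ (j + 1) : ℝ) / γ j - 1|
      ≤ ∑ j ∈ Finset.Ico n (n + k), 5 * (Real.log (γ (j + 1)) - Real.log (γ j)) :=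
        Finset.sum_le_sum fun j _ => hstep j
    _ = 5 * (Real.log (γ (n + k)) - Real.log (γ n)) := by rw [← Finset.mul_sum, htel]
    _ ≤ 5 * Real.log (γ k) := by linarith
    _ ≤ 5 * (C * ((k : ℝ) + 1) ^ (9 / 10 : ℝ)) := by linarith [hC k]
    _ ≤ 5 * (C * (2 * (k : ℝ) ^ (9 / 10 : ℝ))) := by
        have := mul_le_mul_of_nonneg_left h10 hC0
        linarith
    _ = 10 * C * (k : ℝ) ^ (9 / 10 : ℝ) := by ring

end Pool.Agent.GrW
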