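import Pool.Agent.GrW.Defs

/-! # The generators of the frozen statement S01349 -/

set_option autoImplicit false

namespace Pool.Agent.GrW

/-- Flip the letter after the first `false`, unless the number of leading `true` is `r` modulo 3. -/
def flipAt (r : ℕ) (x : List Bool) : List Bool :=
  if (x.takeWhile (fun t => t)).length % 3 = r then x
  else x.take ((x.takeWhile (fun t => t)).length + 1) ++
    (x.drop ((x.takeWhile (fun t => t)).length + 1)).modifyHead (fun t => !t)

theorem act_a_eq (x : List Bool) : act .a x = x.modifyHead (fun t => !t) := by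
  cases x <;> rfl

theorem flipAt_nil (r : ℕ) : flipAt r [] = [] := by
  simp [flipAt]

theorem flipAt_false (r : ℕ) (hr : r ≠ 0) (w : List Bool) :
    flipAt r (false :: w) = false :: act .a w := by
  rw [act_a_eq]
  have h : ¬ (0 = r) := fun h => hr h.symm
  simp [flipAt, h]

theorem flipAt_zero_false (w : List Bool) : flipAt 0 (false :: w) = false :: w := by
  simp [flipAt]

theorem flipAt_true (r r' : ℕ) (h : ∀ k : ℕ, (k + 1) % 3 = r ↔ k % 3 = r') (w : List Bool) :
    flipAt r (true :: w) = true :: flipAt r' w := by
  unfold flipAt
  have e : ((true :: w).takeWhile (fun t => t)).length = (w.takeWhile (fun t => t)).length + 1 := by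
    simp
  rw [e]
  by_cases hk : (w.takeWhile (fun t => t)).length % 3 = r'
  · rw [if_pos ((h _).2 hk), if_pos hk]
  · rw [if_neg (fun hh => hk ((h _).1 hh)), if_neg hk]
    simp

theorem act_eq (x : List Bool) :
    act .b x = flipAt 2 x ∧ act .c x = flipAt 1 x ∧ act .d x = flipAt 0 x := by
  induction x with
  | nil => exact ⟨(flipAt_nil 2).symm, (flipAt_nil 1).symm, (flipAt_nil 0).symm⟩
  | cons y w ih =>
    obtain ⟨hb, hc, hd⟩ := ih
    cases y
    · exact ⟨(flipAt_false 2 (by norm_num) w).symm, (flipAt_false 1 (by norm_num) w).symm,
        (flipAt_zero_false w).symm⟩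
    · rw [flipAt_true 2 1 (by intro k; omega), flipAt_true 1 0 (by intro k; omega),
        flipAt_true 0 2 (by intro k; omega), ← hb, ← hc, ← hd]
      exact ⟨rfl, rfl, rfl⟩

/-- The set of generators in the frozen statement is `{act a, act b, act c, act d}`. -/
theorem gens_eq : ({(fun x : List Bool => x.modifyHead (fun t => !t)),
           (fun x : List Bool =>
              if (x.takeWhile (fun t => t)).length % 3 = 2 then x
              else x.take ((x.takeWhile (fun t => t)).length + 1) ++
                (x.drop ((x.takeWhile (fun t => t)).length + 1)).modifyHead (fun t => !t)),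
           (fun x : List Bool =>
              if (x.takeWhile (fun t => t)).length % 3 = 1 then x
              else x.take ((x.takeWhile (fun t => t)).length + 1) ++
                (x.drop ((x.takeWhile (fun t => t)).length + 1)).modifyHead (fun t => !t)),
           (fun x : List Bool =>
              if (x.takeWhile (fun t => t)).length % 3 = 0 then x
              else x.take ((x.takeWhile (fun t => t)).length + 1) ++
                (x.drop ((x.takeWhile (fun t => t)).length + 1)).modifyHead (fun t => !t))} :
      Set (List Bool → List Bool)) = {act .a, act .b, act .c, act .d} := by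
  have ha : act .a = fun x : List Bool => x.modifyHead (fun t => !t) := funext act_a_eq
  have hb : act .b = flipAt 2 := funext fun x => (act_eq x).1
  have hc : act .c = flipAt 1 := funext fun x => (act_eq x).2.1
  have hd : act .d = flipAt 0 := funext fun x => (act_eq x).2.2
  rw [ha, hb, hc, hd]
  rfl

/-- Words of length at most `n` in the generators. -/
theorem words_eq (S : Set (List Bool → List Bool)) (hS : S = {act .a, act .b, act .c, act .d}) (n : ℕ) :
    {g : List Bool → List Bool |
            ∃ l : List (List Bool → List Bool), l.length ≤ n ∧ (∀ s ∈ l, s ∈ S) ∧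
              g = l.foldr (fun f h => f ∘ h) id} = {g | ∃ u : List L, u.length ≤ n ∧ g = ev u} := by
  subst hS
  ext g
  constructor
  · rintro ⟨l, hl, hS, rfl⟩
    have key : ∀ l : List (List Bool → List Bool),
        (∀ s ∈ l, s ∈ ({act .a, act .b, act .c, act .d} : Set (List Bool → List Bool))) →
        ∃ u : List L, l = u.map act := by
      intro l
      induction l with
      | nil => exact fun _ => ⟨[], rfl⟩
      | cons f l ih =>
        intro h
        obtain ⟨u, hu⟩ := ih (fun s hs => h s (List.mem_cons_of_mem _ hs))
        rcases h f List.mem_cons_self with hf | hf | hf | hf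
        · exact ⟨.a :: u, by rw [hu, hf]; rfl⟩
        · exact ⟨.b :: u, by rw [hu, hf]; rfl⟩
        · exact ⟨.c :: u, by rw [hu, hf]; rfl⟩
        · exact ⟨.d :: u, by rw [hu, Set.mem_singleton_iff.1 hf]; rfl⟩
    obtain ⟨u, rfl⟩ := key l hS
    refine ⟨u, by simpa using hl, ?_⟩
    rw [List.foldr_map]
    rfl
  · rintro ⟨u, hu, rfl⟩
    refine ⟨u.map act, by simpa using hu, ?_, ?_⟩
    · intro s hs
      obtain ⟨x, -, rfl⟩ := List.mem_map.1 hs
      cases x <;> simp
    · rw [List.foldr_map]
      rfl

end Pool.Agent.GrW
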