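import Pool.Agent.GrW.Sec

/-! # Balls for the word length -/

set_option autoImplicit false

namespace Pool.Agent.GrW

/-- The elements of length at most `n`. -/
def lb (n : ℕ) : Set (List Bool → List Bool) := {g | ∃ u : List L, u.length ≤ n ∧ g = ev u}

theorem lb_finite (n : ℕ) : (lb n).Finite := by
  refine ((List.finite_length_le L n).image ev).subset ?_
  rintro g ⟨u, hu, rfl⟩
  exact ⟨u, hu, rfl⟩

theorem lb_pos (n : ℕ) : 1 ≤ (lb n).ncard :=
  (Set.ncard_pos (lb_finite n)).2 ⟨id, [], by simp, rfl⟩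

theorem lb_mono {m n : ℕ} (h : m ≤ n) : (lb m).ncard ≤ (lb n).ncard := by
  refine Set.ncard_le_ncard ?_ (lb_finite n)
  rintro g ⟨u, hu, rfl⟩
  exact ⟨u, hu.trans h, rfl⟩

theorem lb_add (n k : ℕ) : (lb (n + k)).ncard ≤ (lb n).ncard * (lb k).ncard := by
  have h : lb (n + k) ⊆ (fun p : (List Bool → List Bool) × (List Bool → List Bool) => p.1 ∘ p.2) ''
      (lb n ×ˢ lb k) := by
    rintro g ⟨u, hu, rfl⟩
    refine ⟨(ev (u.take n), ev (u.drop n)), ⟨⟨_, by simp, rfl⟩, ⟨_, by simp; omega, rfl⟩⟩, ?_⟩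
    show ev (u.take n) ∘ ev (u.drop n) = ev u
    rw [← ev_append, List.take_append_drop]
  have hf := (lb_finite n).prod (lb_finite k)
  calc (lb (n + k)).ncard ≤ _ := Set.ncard_le_ncard h (hf.image _)
    _ ≤ (lb n ×ˢ lb k).ncard := Set.ncard_image_le hf
    _ = _ := Set.ncard_prod

theorem lb_one : (lb 1).ncard ≤ 5 := by
  classical
  have h : lb 1 ⊆ ((({[], [.a], [.b], [.c], [.d]} : Finset (List L)).image ev : Finset _) :
      Set (List Bool → List Bool)) := by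
    rintro g ⟨u, hu, rfl⟩
    rw [Finset.coe_image]
    refine ⟨u, ?_, rfl⟩
    match u, hu with
    | [], _ => simp
    | [x], _ => cases x <;> simp
    | _ :: _ :: _, h => simp at h
  calc (lb 1).ncard ≤ _ := Set.ncard_le_ncard h (Finset.finite_toSet _)
    _ = _ := Set.ncard_coe_finset _
    _ ≤ _ := Finset.card_image_le
    _ ≤ 5 := by decide

theorem lb_succ (n : ℕ) : (lb (n + 1)).ncard ≤ 5 * (lb n).ncard := by
  refine (lb_add n 1).trans ?_
  rw [mul_comm]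
  exact Nat.mul_le_mul_right _ lb_one

theorem wtw_le (u : List L) : wtw u ≤ 5 * u.length := by
  induction u with
  | nil => simp [wtw]
  | cons x u ih =>
    rw [wtw_cons, List.length_cons]
    have : wt x ≤ 5 := by cases x <;> simp [wt]
    omega

theorem lb_le_ball (n : ℕ) : (lb n).ncard ≤ (ball (5 * n)).ncard := by
  refine Set.ncard_le_ncard ?_ (ball_finite _)
  rintro g ⟨u, hu, rfl⟩
  exact ⟨u, (wtw_le u).trans (by omega), rfl⟩

/-- From a bound for the weighted balls to a bound for the balls. -/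
theorem log_lb {C : ℝ} (hC : 0 < C)
    (h : ∀ R : ℕ, Real.log ((ball R).ncard) ≤ C * ((R : ℝ) + 1) ^ (9 / 10 : ℝ)) (k : ℕ) :
    Real.log ((lb k).ncard) ≤ (5 * C) * ((k : ℝ) + 1) ^ (9 / 10 : ℝ) := by
  have h1 : Real.log ((lb k).ncard) ≤ Real.log ((ball (5 * k)).ncard) := by
    refine Real.log_le_log ?_ ?_
    · exact_mod_cast lb_pos k
    · exact_mod_cast lb_le_ball k
  refine h1.trans ((h _).trans ?_)
  have hk : (0 : ℝ) ≤ (k : ℝ) := Nat.cast_nonneg k
  have h2 : (((5 * k : ℕ) : ℝ) + 1) ^ (9 / 10 : ℝ) ≤ (5 * ((k : ℝ) + 1)) ^ (9 / 10 : ℝ) := by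
    refine Real.rpow_le_rpow (by positivity) ?_ (by norm_num)
    push_cast
    linarith
  have h3 : (5 : ℝ) ^ (9 / 10 : ℝ) ≤ 5 := by
    calc (5 : ℝ) ^ (9 / 10 : ℝ) ≤ (5 : ℝ) ^ (1 : ℝ) :=
          Real.rpow_le_rpow_of_exponent_le (by norm_num) (by norm_num)
      _ = 5 := Real.rpow_one _
  rw [Real.mul_rpow (by norm_num) (by positivity)] at h2
  have h4 : (0 : ℝ) ≤ ((k : ℝ) + 1) ^ (9 / 10 : ℝ) := by positivity
  calc C * (((5 * k : ℕ) : ℝ) + 1) ^ (9 / 10 : ℝ)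
      ≤ C * ((5 : ℝ) ^ (9 / 10 : ℝ) * ((k : ℝ) + 1) ^ (9 / 10 : ℝ)) :=
        mul_le_mul_of_nonneg_left h2 hC.le
    _ ≤ C * (5 * ((k : ℝ) + 1) ^ (9 / 10 : ℝ)) :=
        mul_le_mul_of_nonneg_left (mul_le_mul_of_nonneg_right h3 h4) hC.le
    _ = _ := by ring

end Pool.Agent.GrW
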