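import Pool.Agent.GrW.Defs

/-! # Normal form, sections and the recursion for the balls -/

set_option autoImplicit false

namespace Pool.Agent.GrW

theorem ev_nil : ev [] = id := rfl

theorem ev_cons (x : L) (u : List L) : ev (x :: u) = act x ∘ ev u := rfl

theorem ev_append (u v : List L) : ev (u ++ v) = ev u ∘ ev v := by
  induction u with
  | nil => rfl
  | cons x u ih => rw [List.cons_append, ev_cons, ev_cons, ih]; rfl

theorem wtw_nil : wtw [] = 0 := rfl

theorem wtw_cons (x : L) (u : List L) : wtw (x :: u) = wt x + wtw u := by
  simp [wtw]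

theorem wtw_append (u v : List L) : wtw (u ++ v) = wtw u + wtw v := by
  simp [wtw]

/-! ### Relations -/

theorem act_act (x : L) (w : List Bool) : act x (act x w) = w := by
  induction w generalizing x with
  | nil => cases x <;> rfl
  | cons i w ih => cases x <;> cases i <;> simp [act, ih]

theorem act_mul (w : List Bool) :
    act .b (act .c w) = act .d w ∧ act .c (act .b w) = act .d w ∧
    act .b (act .d w) = act .c w ∧ act .d (act .b w) = act .c w ∧
    act .c (act .d w) = act .b w ∧ act .d (act .c w) = act .b w := by
  induction w with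
  | nil => simp [act]
  | cons i w ih =>
    obtain ⟨h1, h2, h3, h4, h5, h6⟩ := ih
    cases i <;> simp [act, act_act, h1, h2, h3, h4, h5, h6]

/-! ### Alternating words -/

mutual
/-- Words without two adjacent letters from `b, c, d` which do not begin with such a letter. -/
inductive T0 : List L → Prop
  | nil : T0 []
  | cons (u : List L) : T1 u → T0 (.a :: u)
/-- Words without two adjacent letters from `b, c, d`. -/
inductive T1 : List L → Prop
  | of (u : List L) : T0 u → T1 u
  | cons (x : L) (u : List L) : x ≠ .a → T0 u → T1 (x :: u)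
end

theorem exists_T1 (u : List L) : ∃ v, ev v = ev u ∧ wtw v ≤ wtw u ∧ T1 v := by
  induction u with
  | nil => exact ⟨[], rfl, le_rfl, .of _ .nil⟩
  | cons x u ih =>
    obtain ⟨v, h1, h2, h3⟩ := ih
    by_cases hx : x = .a
    · subst hx
      exact ⟨.a :: v, by rw [ev_cons, ev_cons, h1], by rw [wtw_cons, wtw_cons]; omega,
        .of _ (.cons _ h3)⟩
    · cases h3 with
      | of _ h => exact ⟨x :: v, by rw [ev_cons, ev_cons, h1], by rw [wtw_cons, wtw_cons]; omega,
          .cons _ _ hx h⟩
      | cons y v' hy h =>
        rw [wtw_cons] at h2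
        have key : ev (x :: u) = act x ∘ (act y ∘ ev v') := by rw [ev_cons, ← h1, ev_cons]
        have hm := act_mul
        rw [key, wtw_cons]
        cases x <;> cases y <;> simp only [ne_eq, not_true_eq_false, reduceCtorEq,
          not_false_eq_true] at hx hy
        · exact ⟨v', by funext w; simp [act_act], by omega, .of _ h⟩
        · exact ⟨.d :: v', by funext w; simp [ev_cons, hm], by
            rw [wtw_cons]; simp only [wt] at h2 ⊢; omega, .cons _ _ (by simp) h⟩
        · exact ⟨.c :: v', by funext w; simp [ev_cons, hm], by
            rw [wtw_cons]; simp only [wt] at h2 ⊢; omega, .cons _ _ (by simp) h⟩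
        · exact ⟨.d :: v', by funext w; simp [ev_cons, hm], by
            rw [wtw_cons]; simp only [wt] at h2 ⊢; omega, .cons _ _ (by simp) h⟩
        · exact ⟨v', by funext w; simp [act_act], by omega, .of _ h⟩
        · exact ⟨.b :: v', by funext w; simp [ev_cons, hm], by
            rw [wtw_cons]; simp only [wt] at h2 ⊢; omega, .cons _ _ (by simp) h⟩
        · exact ⟨.c :: v', by funext w; simp [ev_cons, hm], by
            rw [wtw_cons]; simp only [wt] at h2 ⊢; omega, .cons _ _ (by simp) h⟩
        · exact ⟨.b :: v', by funext w; simp [ev_cons, hm], by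
            rw [wtw_cons]; simp only [wt] at h2 ⊢; omega, .cons _ _ (by simp) h⟩
        · exact ⟨v', by funext w; simp [act_act], by omega, .of _ h⟩

/-! ### Sections -/

/-- The section of a letter at the vertex `i`. -/
def sc : Bool → L → List L
  | _, .a => []
  | false, .b => [.a]
  | true, .b => [.c]
  | false, .c => [.a]
  | true, .c => [.d]
  | false, .d => []
  | true, .d => [.b]

/-- The number of letters `a` modulo two. -/
def par : List L → Bool
  | [] => false
  | .a :: u => !(par u)
  | _ :: u => par u

/-- The section of a word at the vertex `i`. -/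
def sec (i : Bool) : List L → List L
  | [] => []
  | x :: u => sc (xor i (par u)) x ++ sec i u

theorem ev_act (x : L) (i : Bool) (w : List Bool) :
    act x (i :: w) = (xor i (par [x])) :: ev (sc i x) w := by
  cases x <;> cases i <;> simp [act, par, sc, ev]

theorem par_cons (x : L) (u : List L) : par (x :: u) = xor (par u) (par [x]) := by
  cases x <;> simp [par]

theorem ev_sec (i : Bool) (u : List L) (w : List Bool) :
    ev u (i :: w) = (xor i (par u)) :: ev (sec i u) w := by
  induction u with
  | nil => simp [ev_nil, par, sec]
  | cons x u ih =>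
    rw [ev_cons, Function.comp_apply, ih, ev_act, par_cons x u, sec, ev_append, Bool.xor_assoc]
    rfl

theorem ev_empty (u : List L) : ev u [] = [] := by
  induction u with
  | nil => rfl
  | cons x u ih => rw [ev_cons, Function.comp_apply, ih]; cases x <;> rfl

/-- Weight of the two sections of a letter. -/
def s2 : L → ℕ
  | .a => 0
  | .b => 8
  | .c => 7
  | .d => 5

theorem sec_wt (u : List L) :
    wtw (sec false u) + wtw (sec true u) = (u.map s2).sum := by
  induction u with
  | nil => rfl
  | cons x u ih =>
    simp only [sec, wtw_append, List.map_cons, List.sum_cons]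
    have : wtw (sc (xor false (par u)) x) + wtw (sc (xor true (par u)) x) = s2 x := by
      cases x <;> cases par u <;> simp [sc, wtw, wt, s2]
    omega

theorem T_bound (n : ℕ) : ∀ u : List L, u.length = n →
    (T0 u → 8 * (u.map s2).sum ≤ 7 * wtw u) ∧ (T1 u → 8 * (u.map s2).sum ≤ 7 * wtw u + 35) := by
  induction n using Nat.strong_induction_on with
  | _ n ih =>
    intro u hu
    have h0 : T0 u → 8 * (u.map s2).sum ≤ 7 * wtw u := by
      intro h
      cases h with
      | nil => simp [wtw]
      | cons v hv =>
        have := (ih v.length (by simp at hu; omega) v rfl).2 hv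
        rw [wtw_cons]
        simp only [List.map_cons, List.sum_cons, s2, wt]
        omega
    refine ⟨h0, ?_⟩
    intro h
    cases h with
    | of _ h => have := h0 h; omega
    | cons x v hx hv =>
      have := (ih v.length (by simp at hu; omega) v rfl).1 hv
      rw [wtw_cons]
      simp only [List.map_cons, List.sum_cons]
      have h8 : 8 * s2 x ≤ 7 * wt x + 35 := by cases x <;> simp [s2, wt]
      omega

/-! ### The recursion -/

theorem length_le_wtw (u : List L) : u.length ≤ wtw u := by
  induction u with
  | nil => simp
  | cons x u ih =>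
    rw [wtw_cons, List.length_cons]
    have : 1 ≤ wt x := by cases x <;> simp [wt]
    omega

instance : Fintype L := ⟨{.a, .b, .c, .d}, fun x => by cases x <;> simp⟩

theorem ball_finite (R : ℕ) : (ball R).Finite := by
  refine ((List.finite_length_le L R).image ev).subset ?_
  rintro g ⟨u, hu, rfl⟩
  exact ⟨u, (length_le_wtw u).trans hu, rfl⟩

theorem id_mem (R : ℕ) : id ∈ ball R := ⟨[], by simp [wtw], rfl⟩

theorem ball_pos (R : ℕ) : 1 ≤ (ball R).ncard := by
  exact (Set.ncard_pos (ball_finite R)).2 ⟨id, id_mem R⟩

theorem ball_rec (R : ℕ) : (ball R).ncard ≤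
    2 * ∑ k ∈ Finset.range (7 * (R + 5) / 8 + 1), (ball k).ncard * (ball (7 * (R + 5) / 8 - k)).ncard := by
  classical
  set S := 7 * (R + 5) / 8 with hS
  set Φ : (List Bool → List Bool) → List Bool × ((List Bool → List Bool) × (List Bool → List Bool)) :=
    fun g => (g [false], (fun w => (g (false :: w)).tail, fun w => (g (true :: w)).tail)) with hΦ
  set Q : Set ((List Bool → List Bool) × (List Bool → List Bool)) :=
    ⋃ k ∈ Finset.range (S + 1), ball k ×ˢ ball (S - k) with hQ
  have hQfin : Q.Finite := by
    refine (Finset.range (S + 1)).finite_toSet.biUnion fun k _ => ?_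
    exact (ball_finite k).prod (ball_finite _)
  have himg : Φ '' ball R ⊆ ({[false], [true]} : Set (List Bool)) ×ˢ Q := by
    rintro _ ⟨g, ⟨u, hu, rfl⟩, rfl⟩
    obtain ⟨v, h1, h2, h3⟩ := exists_T1 u
    have h4 := (T_bound _ v rfl).2 h3
    rw [← sec_wt] at h4
    rw [← h1]
    have h5 : wtw (sec false v) + wtw (sec true v) ≤ S := by
      rw [hS, Nat.le_div_iff_mul_le (by norm_num)]
      omega
    refine Set.mk_mem_prod ?_ ?_
    · rw [ev_sec, ev_empty]
      cases par v <;> simp
    · refine Set.mem_biUnion (x := wtw (sec false v)) ?_ ?_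
      · rw [Finset.coe_range]
        exact Set.mem_Iio.2 (by omega)
      · refine Set.mk_mem_prod ⟨sec false v, le_rfl, ?_⟩ ⟨sec true v, by omega, ?_⟩
        · funext w
          simp [ev_sec]
        · funext w
          simp [ev_sec]
  have hinj : Set.InjOn Φ (ball R) := by
    rintro g ⟨u, -, rfl⟩ h ⟨v, -, rfl⟩ hgh
    simp only [hΦ, Prod.mk.injEq] at hgh
    obtain ⟨e1, e2, e3⟩ := hgh
    rw [ev_sec, ev_sec, ev_empty, ev_empty] at e1
    have e4 : par u = par v := by simpa using e1
    funext w
    cases w with
    | nil => rw [ev_empty, ev_empty]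
    | cons i w =>
      have e5 := congrFun e2 w
      have e6 := congrFun e3 w
      simp only [ev_sec, List.tail_cons] at e5 e6
      cases i
      · rw [ev_sec, ev_sec, e4, e5]
      · rw [ev_sec, ev_sec, e4, e6]
  calc (ball R).ncard = (Φ '' ball R).ncard := hinj.ncard_image.symm
    _ ≤ (({[false], [true]} : Set (List Bool)) ×ˢ Q).ncard :=
        Set.ncard_le_ncard himg ((Set.toFinite _).prod hQfin)
    _ = 2 * Q.ncard := by
        rw [Set.ncard_prod, Set.ncard_pair (by simp)]
    _ ≤ 2 * ∑ k ∈ Finset.range (S + 1), (ball k).ncard * (ball (S - k)).ncard := by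
        refine Nat.mul_le_mul_left _ ?_
        refine (Finset.set_ncard_biUnion_le _ _).trans ?_
        exact Finset.sum_le_sum fun k _ => (Set.ncard_prod).le

end Pool.Agent.GrW
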